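import Pool.Agent.L0h19.QE.Stm

/-! # Project QE: MINA -/

set_option autoImplicit false

namespace Pool.Agent.L0h25.QE

open Finset Filter Topology
open Pool.Agent.L0h19.QE

theorem t_MINA : S_MINA := by
  intro hV hG ε hε M I hM hI α hlt
  by_contra hcon
  push Not at hcon
  have hI0 : (0 : ℝ) < I := by exact_mod_cast hI
  have hε2 : 0 < ε ^ 2 := by positivity
  have hM0 : (0 : ℝ) < M := lt_trans (by positivity) hM
  have hM1 : 1 ≤ M := by
    have : 0 < M := by exact_mod_cast hM0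
    exact this
  have hgs : ∀ h ∈ Icc 1 (M - 1), gs (8 * α * M * h) I ≤ ε ^ 2 * I / 4 := by
    intro h hh
    have h1 := (hG (8 * α * M * h) I).2 (2 / (ε ^ 2 * I)) (by positivity) (hcon h hh).le
    refine h1.trans (le_of_eq ?_)
    field_simp
    ring
  have hsum : ∑ h ∈ Icc 1 (M - 1), gs (8 * α * M * h) I ≤ M * (ε ^ 2 * I / 4) := by
    refine (Finset.sum_le_card_nsmul _ _ _ hgs).trans ?_
    rw [nsmul_eq_mul, Nat.card_Icc]
    have h2 : ((M - 1 + 1 - 1 : ℕ) : ℝ) ≤ M := by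
      have : M - 1 + 1 - 1 ≤ M := by omega
      exact_mod_cast this
    exact mul_le_mul_of_nonneg_right h2 (by positivity)
  have hv := hV α M I
  have hcs : (∑ i ∈ range I, ‖bl α M i‖) ^ 2 ≤ I * ∑ i ∈ range I, ‖bl α M i‖ ^ 2 := by
    have h3 := sq_sum_le_card_mul_sum_sq (s := range I) (f := fun i => ‖bl α M i‖)
    rwa [card_range] at h3
  have h4 : ∑ i ∈ range I, ‖bl α M i‖ ^ 2 ≤ M * I + 2 * M * (M * (ε ^ 2 * I / 4)) :=
    hv.trans (by gcongr)
  have h5 : (ε * M * I) ^ 2 < (∑ i ∈ range I, ‖bl α M i‖) ^ 2 := by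
    have : 0 ≤ ε * M * I := by positivity
    nlinarith [hlt, this]
  have h6 : (ε * M * I) ^ 2 < I * (M * I + 2 * M * (M * (ε ^ 2 * I / 4))) :=
    h5.trans_le (hcs.trans (mul_le_mul_of_nonneg_left h4 hI0.le))
  have h7 : 2 < M * ε ^ 2 := by
    rwa [div_lt_iff₀ hε2] at hM
  have h8 : (I : ℝ) * (M * I + 2 * M * (M * (ε ^ 2 * I / 4))) = (M * I ^ 2) * (1 + M * ε ^ 2 / 2) := by ring
  have h9 : (ε * M * I) ^ 2 = (M * I ^ 2) * (M * ε ^ 2) := by ring
  rw [h8, h9] at h6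
  have h10 : (0 : ℝ) < M * I ^ 2 := by positivity
  have h11 := lt_of_mul_lt_mul_left h6 h10.le
  linarith

end Pool.Agent.L0h25.QE
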